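import Pool.Agent.Helper99.WG.Graph

/-!
# Spanning bipartite subgraphs of maximal degree two

For every `s`, every balanced bipartite graph `G` on `2 s` vertices with minimal degree at least
`7 s / 10` contains every bipartite graph `H` on `2 s` vertices with maximal degree at most two.
-/

set_option autoImplicit false

namespace Pool.Agent.Results.MP_abf47a_co.SevenTenths

/-- Let `A`, `B` be the sides of the balanced bipartite graph `G`, of size `s` each, and let all
degrees of `G` be at least `7 s / 10`.  Then `G` contains every bipartite graph `H` on `2 s`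
vertices with all degrees at most two. -/
theorem result {V W : Type*} [Fintype V] [Fintype W] {s : ℕ} (G : SimpleGraph V) (A B : Set V)
    (hAB : G.IsBipartiteWith A B) (hV : A ∪ B = Set.univ) (hA : A.ncard = s) (hB : B.ncard = s)
    (hG : ∀ v, (7 * s : ℝ) / 10 ≤ (G.neighborSet v).ncard) (H : SimpleGraph W)
    (hW : Fintype.card W = 2 * s) (hH : H.IsBipartite)
    (hD : ∀ w, (H.neighborSet w).ncard ≤ 2) : H.IsContained G := by
  refine Pool.Agent.Helper99.WG.contained G A B hAB hA hB (fun v => ?_) H hW hH hD
  have h1 := hG v
  have h2 : (7 * s : ℝ) ≤ 10 * (G.neighborSet v).ncard := by linarith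
  exact_mod_cast h2

end Pool.Agent.Results.MP_abf47a_co.SevenTenths
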