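import Pool.Agent.Helper75.WG.Main

/-!
# Spanning bipartite subgraphs of maximum degree two and minimum degree two thirds

For every `s`, every balanced bipartite graph `G` on `2 s` vertices with minimum degree at least
`2 s / 3` contains every bipartite graph `H` on `2 s` vertices with maximum degree at most two in
which at most one ninth of the vertices lie on 4-cycles. More generally `c` vertices of `H` may lie
on 4-cycles if moreover `88 δ(G) ≥ 58 s + 3 c`.

Proof. The bipartition of `H` can be taken balanced. Among all placements of one side of `H` choose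
one which maximises the total number of common non-neighbours of the pairs joined through a vertex
of the other side. If the other side cannot be placed, Hall's theorem gives a violator; the
exchange inequalities for pairs of vertices of the violator bound its size.
-/

set_option autoImplicit false

namespace Pool.Agent.Results.MP_abf47a_co.TwoThirds

open SimpleGraph

/-- Let `A`, `B` be the sides of the balanced bipartite graph `G`, of size `s` each, and let the
minimum degree of `G` be at least `2 s / 3`. Let `H` be a bipartite graph on `2 s` vertices with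
maximum degree at most two, and let `c` be the number of its vertices `v` that lie on a 4-cycle
`v x u y`. If `58 s + 3 c ≤ 88 δ(G)`, for example if `9 c ≤ 2 s`, then `G` contains `H`. -/
theorem result {V W : Type*} [Fintype V] [Fintype W] [DecidableEq V] (G : SimpleGraph V)
    (H : SimpleGraph W) [DecidableRel G.Adj] [DecidableRel H.Adj] (s : ℕ) (A B : Finset V)
    (hG : G.IsBipartiteWith (A : Set V) (B : Set V)) (hAB : A ∪ B = Finset.univ)
    (hA : A.card = s) (hB : B.card = s) (hδ : 2 * s ≤ 3 * G.minDegree)
    (hH : H.IsBipartite) (hW : Fintype.card W = 2 * s) (hΔ : H.maxDegree ≤ 2)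
    (hc : 58 * s + 3 * {v | ∃ u x y, u ≠ v ∧ x ≠ y ∧ H.Adj v x ∧ H.Adj v y ∧ H.Adj u x ∧
      H.Adj u y}.ncard ≤ 88 * G.minDegree) :
    H ⊑ G :=
  Pool.Agent.Helper75.WG.main G H s A B hG hAB hA hB hH hW
    (fun v => (H.degree_le_maxDegree v).trans hΔ) (Or.inr ⟨hδ, hc⟩)

/-- The case that at most one ninth of the vertices of `H` lie on 4-cycles. -/
theorem few_quadrilaterals {V W : Type*} [Fintype V] [Fintype W] [DecidableEq V]
    (G : SimpleGraph V) (H : SimpleGraph W) [DecidableRel G.Adj] [DecidableRel H.Adj] (s : ℕ)
    (A B : Finset V) (hG : G.IsBipartiteWith (A : Set V) (B : Set V)) (hAB : A ∪ B = Finset.univ)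
    (hA : A.card = s) (hB : B.card = s) (hδ : 2 * s ≤ 3 * G.minDegree)
    (hH : H.IsBipartite) (hW : Fintype.card W = 2 * s) (hΔ : H.maxDegree ≤ 2)
    (hc : 9 * {v | ∃ u x y, u ≠ v ∧ x ≠ y ∧ H.Adj v x ∧ H.Adj v y ∧ H.Adj u x ∧
      H.Adj u y}.ncard ≤ 2 * s) :
    H ⊑ G :=
  result G H s A B hG hAB hA hB hδ hH hW hΔ (by omega)

end Pool.Agent.Results.MP_abf47a_co.TwoThirds
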